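import Pool.Agent.N963.KL.Stm
import Pool.Agent.N525.GN.C5
import Pool.Agent.N134.GN.C2
import Pool.Agent.H24R2.JP.Good
import Pool.Agent.H24R2.JP.Had
import Pool.Agent.H24R2.JP.B1
import Pool.Agent.H24R2.JP.Grow
import Pool.Agent.H24R2.JP.Zeros
import Pool.Agent.H24R2.JP.Gam
import Pool.Agent.H24R2.JP.Mom

set_option autoImplicit false

/-!
# The zeros of `φ(D) Ξ` are in the strip `|Im z| ≤ 1/2` (project KL, helper136 for helper963)
-/

namespace Pool.Agent.N136.KL

open Complex Filter Topology MeasureTheory Polynomial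
open scoped ComplexConjugate
open Pool.Agent.N963.GN Pool.Agent.N963.KL Pool.Agent.N525.GN.C5
open Pool.Agent.H24R2.JP (FF XX Par)

/-- Locally uniform limits of real polynomials with all roots in the strip. -/
def ST (f : ℂ → ℂ) : Prop := ∀ R ε : ℝ, 0 < ε →
  ∃ P : ℝ[X], (∀ w : ℂ, aeval w P = 0 → |w.im| ≤ 1 / 2) ∧ ∀ z : ℂ, ‖z‖ ≤ R → ‖f z - aeval z P‖ ≤ ε

theorem st_lim {f : ℂ → ℂ}
    (hf : ∀ R ε : ℝ, 0 < ε → ∃ g : ℂ → ℂ, ST g ∧ ∀ z : ℂ, ‖z‖ ≤ R → ‖f z - g z‖ ≤ ε) : ST f := by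
  intro R ε hε
  obtain ⟨g, hg, hfg⟩ := hf R (ε / 2) (by positivity)
  obtain ⟨P, hd, hgP⟩ := hg R (ε / 2) (by positivity)
  refine ⟨P, hd, fun z hz => ?_⟩
  calc ‖f z - aeval z P‖ = ‖(f z - g z) + (g z - aeval z P)‖ := by ring_nf
    _ ≤ ‖f z - g z‖ + ‖g z - aeval z P‖ := norm_add_le _ _
    _ ≤ ε / 2 + ε / 2 := add_le_add (hfg z hz) (hgP z hz)
    _ = ε := by ring

theorem ne_zero_of_strip {P : ℝ[X]} (h : ∀ w : ℂ, aeval w P = 0 → |w.im| ≤ 1 / 2) : P ≠ 0 := by
  rintro rfl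
  have h1 := h I (by simp)
  rw [Complex.I_im, abs_one] at h1
  norm_num at h1

/-- the sum of the reciprocals above the strip -/
theorem sum_im (s : Multiset ℂ) (z : ℂ) (σ : ℝ) (hσ : 0 < σ * z.im - 1 / 2) (hs1 : σ * σ = 1)
    (hs : ∀ w ∈ s, |w.im| ≤ 1 / 2) (hne : s ≠ 0) :
    σ * ((s.map fun w => 1 / (z - w)).sum).im < 0 := by
  have hσw : ∀ w : ℂ, |w.im| ≤ 1 / 2 → σ * w.im ≤ 1 / 2 := by
    intro w hw
    have h1 := abs_le.1 hw
    rcases mul_self_eq_one_iff.1 hs1 with h | h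
    · rw [h]; linarith [h1.2]
    · rw [h]; linarith [h1.1]
  have hterm : ∀ w : ℂ, |w.im| ≤ 1 / 2 → σ * (1 / (z - w)).im < 0 := by
    intro w hw
    have h1 := hσw w hw
    have h2 : 0 < σ * (z - w).im := by
      rw [Complex.sub_im, mul_sub]
      linarith
    have h3 : z - w ≠ 0 := by
      intro h0
      rw [h0, Complex.zero_im, mul_zero] at h2
      exact lt_irrefl _ h2
    have h4 : 0 < Complex.normSq (z - w) := Complex.normSq_pos.2 h3
    rw [one_div, Complex.inv_im]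
    have h5 : σ * (-(z - w).im / Complex.normSq (z - w)) =
        -(σ * (z - w).im / Complex.normSq (z - w)) := by ring
    rw [h5, neg_lt_zero]
    positivity
  induction s using Multiset.induction with
  | empty => exact absurd rfl hne
  | cons w s ih =>
    rw [Multiset.map_cons, Multiset.sum_cons, Complex.add_im, mul_add]
    have h1 := hterm w (hs w (Multiset.mem_cons_self w s))
    rcases eq_or_ne s 0 with h0 | h0
    · rw [h0]
      simpa using h1
    · have h2 := ih (fun v hv => hs v (Multiset.mem_cons_of_mem hv)) h0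
      linarith

/-- the operator `D - a` -/
theorem strip_sub {P : ℝ[X]} (h : ∀ w : ℂ, aeval w P = 0 → |w.im| ≤ 1 / 2) {a : ℝ} (ha : a ≠ 0) :
    ∀ w : ℂ, aeval w (derivative P - C a * P) = 0 → |w.im| ≤ 1 / 2 := by
  intro z hz
  by_contra hcon
  push Not at hcon
  obtain ⟨Q, hQ⟩ : ∃ Q : ℂ[X], Q = P.map (algebraMap ℝ ℂ) := ⟨_, rfl⟩
  have hev : ∀ w : ℂ, Q.eval w = aeval w P := fun w => by rw [hQ, eval_map_algebraMap]
  have hevd : ∀ w : ℂ, (derivative Q).eval w = aeval w (derivative P) := fun w => by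
    rw [hQ, derivative_map, eval_map_algebraMap]
  have hPz : Q.eval z ≠ 0 := by
    intro h0
    rw [hev] at h0
    exact absurd (h z h0) (not_le.2 hcon)
  have h1 := (IsAlgClosed.splits Q).eval_derivative_div_eval_of_ne_zero hPz
  have h2 : (derivative Q).eval z / Q.eval z = (a : ℂ) := by
    rw [div_eq_iff hPz, hevd, hev]
    rw [map_sub, map_mul, aeval_C, sub_eq_zero] at hz
    exact hz
  rw [h2] at h1
  have hroots : ∀ w ∈ Q.roots, |w.im| ≤ 1 / 2 := by
    intro w hw
    apply h w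
    rw [← hev]
    exact (mem_roots'.1 hw).2
  rcases eq_or_ne Q.roots 0 with h0 | h0
  · rw [h0] at h1
    simp only [Multiset.map_zero, Multiset.sum_zero, Complex.ofReal_eq_zero] at h1
    exact ha h1
  · rcases le_or_gt 0 z.im with h3 | h3
    · rw [abs_of_nonneg h3] at hcon
      have h4 := sum_im Q.roots z 1 (by linarith) (by norm_num) hroots h0
      rw [← h1, Complex.ofReal_im, mul_zero] at h4
      exact lt_irrefl _ h4
    · rw [abs_of_neg h3] at hcon
      have h4 := sum_im Q.roots z (-1) (by linarith) (by norm_num) hroots h0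
      rw [← h1, Complex.ofReal_im, mul_zero] at h4
      exact lt_irrefl _ h4

theorem st_smul {F : ℂ → ℂ} (h : ST F) {c : ℝ} (hc : c ≠ 0) : ST (fun z => (c : ℂ) * F z) := by
  intro R ε hε
  obtain ⟨P, hP, hb⟩ := h R (ε / |c|) (by positivity)
  refine ⟨C c * P, ?_, fun z hz => ?_⟩
  · intro w hw
    rw [map_mul, aeval_C, mul_eq_zero] at hw
    rcases hw with hw | hw
    · exfalso
      rw [Complex.coe_algebraMap] at hw
      exact hc (by exact_mod_cast hw)
    · exact hP w hw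
  · have h1 := hb z hz
    rw [map_mul, aeval_C]
    have : (c : ℂ) * F z - (algebraMap ℝ ℂ) c * aeval z P = (c : ℂ) * (F z - aeval z P) := by
      rw [Complex.coe_algebraMap]; ring
    rw [this, norm_mul, Complex.norm_real, Real.norm_eq_abs]
    calc |c| * ‖F z - aeval z P‖ ≤ |c| * (ε / |c|) := by gcongr
      _ = ε := by field_simp

theorem st_sub {F : ℂ → ℂ} (hF : Differentiable ℂ F) (h : ST F) (x : ℝ) :
    ST (fun z => deriv F z - x * F z) := by
  have key : ∀ x : ℝ, x ≠ 0 → ST (fun z => deriv F z - x * F z) := by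
    intro b hb R ε hε
    obtain ⟨P, hd, hfP⟩ := h (R + 1) (ε / (2 * (1 + |b|))) (by positivity)
    refine ⟨derivative P - C b * P, strip_sub hd hb, fun z hz => ?_⟩
    have hQe : aeval z (derivative P - C b * P) = aeval z (derivative P) - b * aeval z P := by
      rw [map_sub, map_mul, aeval_C, Complex.coe_algebraMap]
    have h1 : ‖F z - aeval z P‖ ≤ ε / (2 * (1 + |b|)) := hfP z (by linarith)
    have h2 : ‖deriv F z - aeval z (derivative P)‖ ≤ ε / (2 * (1 + |b|)) := by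
      have h3 : deriv (fun w => F w - aeval w P) z = deriv F z - aeval z (derivative P) := by
        have h4 : deriv (fun w : ℂ => aeval w P) z = aeval z (derivative P) :=
          Polynomial.deriv_aeval P
        rw [← h4]
        exact deriv_sub (hF z) (Polynomial.differentiable_aeval P z)
      rw [← h3]
      have h4 := Complex.norm_deriv_le_of_forall_mem_sphere_norm_le (c := z) (R := 1)
        (C := ε / (2 * (1 + |b|))) (f := fun w => F w - aeval w P) one_pos
        ((hF.sub (Polynomial.differentiable_aeval P)).diffContOnCl) (by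
          intro w hw
          apply hfP
          have : ‖w - z‖ = 1 := by simpa [dist_eq_norm] using hw
          calc ‖w‖ = ‖(w - z) + z‖ := by ring_nf
            _ ≤ ‖w - z‖ + ‖z‖ := norm_add_le _ _
            _ ≤ R + 1 := by linarith)
      simpa using h4
    have h6 : deriv F z - b * F z - aeval z (derivative P - C b * P) =
        (deriv F z - aeval z (derivative P)) - b * (F z - aeval z P) := by
      rw [hQe]
      ring
    rw [h6]
    have h7 : ε / (2 * (1 + |b|)) + |b| * (ε / (2 * (1 + |b|))) = ε / 2 := by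
      field_simp
    calc ‖(deriv F z - aeval z (derivative P)) - b * (F z - aeval z P)‖
        ≤ ‖deriv F z - aeval z (derivative P)‖ + ‖(b : ℂ) * (F z - aeval z P)‖ := norm_sub_le _ _
      _ ≤ ε / (2 * (1 + |b|)) + |b| * (ε / (2 * (1 + |b|))) := by
          rw [norm_mul, Complex.norm_real, Real.norm_eq_abs]
          gcongr
      _ ≤ ε := by rw [h7]; linarith
  by_cases hx : x = 0
  · subst hx
    refine st_lim fun R ε hε => ?_
    obtain ⟨B, hB⟩ := (isCompact_closedBall (0 : ℂ) R).exists_bound_of_continuousOn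
      hF.continuous.continuousOn
    have hB1 : 0 < |B| + 1 := by positivity
    refine ⟨_, key (ε / (|B| + 1)) (by positivity), fun z hz => ?_⟩
    have h2 := hB z (by simpa using hz)
    have : deriv F z - ((0 : ℝ) : ℂ) * F z - (deriv F z - ((ε / (|B| + 1) : ℝ) : ℂ) * F z) =
        ((ε / (|B| + 1) : ℝ) : ℂ) * F z := by
      push_cast; ring
    rw [this, norm_mul, Complex.norm_real, Real.norm_of_nonneg (by positivity)]
    calc ε / (|B| + 1) * ‖F z‖ ≤ ε / (|B| + 1) * (|B| + 1) := by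
          gcongr
          linarith [le_abs_self B]
      _ = ε := by field_simp
  · exact key x hx

theorem st_op {G : ℂ → ℂ} (hG : Differentiable ℂ G) (h : ST G) :
    ∀ (d : ℕ) (Q : ℝ[X]), Q.natDegree = d → (∀ w : ℂ, aeval w Q = 0 → w.im = 0) →
      ST (op Q G) := by
  intro d
  induction d with
  | zero =>
    intro Q hd hr
    obtain ⟨c, rfl⟩ : ∃ c, Q = C c := ⟨_, eq_C_of_natDegree_eq_zero hd⟩
    have hc : c ≠ 0 := by
      rintro rfl
      have := hr I (by simp)
      simp at this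
    have : op (C c) G = fun z => (c : ℂ) * G z := by
      funext z
      rw [op_range (C c) G z (N := 1) (by simp)]
      simp
    rw [this]
    exact st_smul h hc
  | succ d ih =>
    intro Q hd hr
    have hQ0 : Q ≠ 0 := by
      rintro rfl
      simp at hd
    obtain ⟨w, hw⟩ := IsAlgClosed.exists_aeval_eq_zero ℂ Q (by
      intro h0
      rw [degree_eq_natDegree hQ0, hd] at h0
      norm_cast at h0)
    have him := hr w hw
    have hwre : w = (w.re : ℂ) := Complex.ext rfl (by simpa using him)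
    have hroot : Q.IsRoot w.re := by
      rw [hwre] at hw
      have h1 : aeval ((w.re : ℝ) : ℂ) Q = ((Q.eval w.re : ℝ) : ℂ) := by
        have := aeval_algebraMap_apply ℂ w.re Q
        simpa using this
      rw [h1] at hw
      exact_mod_cast hw
    obtain ⟨Q1, hQ1⟩ := dvd_iff_isRoot.2 hroot
    have hQ10 : Q1 ≠ 0 := by
      rintro rfl
      rw [mul_zero] at hQ1
      exact hQ0 hQ1
    have hd1 : Q1.natDegree = d := by
      rw [hQ1, natDegree_mul (X_sub_C_ne_zero _) hQ10, natDegree_X_sub_C] at hd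
      omega
    have hr1 : ∀ u : ℂ, aeval u Q1 = 0 → u.im = 0 := by
      intro u hu
      refine hr u ?_
      rw [hQ1, map_mul, hu, mul_zero]
    have h1 := ih Q1 hd1 hr1
    have h2 := st_sub (op_diff Q1 hG) h1 w.re
    refine (congrArg ST (funext fun z => ?_)).mp h2
    rw [hQ1, op_mul Q1 w.re hG z]

/-- the operator `ψ(D)` -/
theorem st_main {ψ : ℂ → ℂ} (hψ : LPc ψ) {G : ℂ → ℂ} (hG : Differentiable ℂ G) (hgr : Gr2 G)
    (hm : ST G) : ST (fun z => ∑' n, trm ψ G z n) := by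
  obtain ⟨hne, Q, hQr, hQl⟩ := hψ
  obtain ⟨M, hM, N0, hN0⟩ := Pool.Agent.N134.GN.c2 ψ Q hne hQr hQl
  obtain ⟨σ, hσ, hgb⟩ := gbd hG hgr
  have hQd : ∀ N, Differentiable ℂ (fun w : ℂ => aeval w (Q N)) := fun N =>
    Polynomial.differentiable_aeval (Q N)
  have hψd : Differentiable ℂ ψ := by
    rw [← differentiableOn_univ]
    exact (tendstoLocallyUniformlyOn_univ.2 hQl).differentiableOn
      (Eventually.of_forall fun N => (hQd N).differentiableOn) isOpen_univ
  have hpt : ∀ s, Tendsto (fun N => aeval s (Q N)) atTop (𝓝 (ψ s)) := fun s =>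
    (tendstoLocallyUniformlyOn_univ.2 hQl).tendsto_at (Set.mem_univ s)
  have hψb : ∀ s, ‖ψ s‖ ≤ M * Real.exp (M * ‖s‖ ^ 2) := fun s =>
    le_of_tendsto (hpt s).norm (eventually_atTop.2 ⟨N0, fun N hN => hN0 N hN s⟩)
  set co : ℕ → ℂ := fun n => iteratedDeriv n ψ 0 / (n.factorial : ℂ) with hco
  have hcob : ∀ n, ‖co n‖ ≤ qb M n := qbd hψd hM hψb
  have htrm : ∀ z n, trm ψ G z n = co n * iteratedDeriv n G z := fun z n => rfl
  -- coefficients converge
  have hcoef : ∀ n, Tendsto (fun N => ‖((Q N).coeff n : ℂ) - co n‖) atTop (𝓝 0) := by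
    intro n
    rw [Metric.tendsto_atTop]
    intro ε hε
    have h1 := (tendstoLocallyUniformly_iff_forall_isCompact.1 hQl) (Metric.closedBall 0 1)
      (isCompact_closedBall 0 1)
    rw [Metric.tendstoUniformlyOn_iff] at h1
    obtain ⟨N1, hN1⟩ := eventually_atTop.1 (h1 (ε / 2) (by positivity))
    refine ⟨N1, fun N hN => ?_⟩
    have h2 := Complex.norm_iteratedDeriv_le_of_forall_mem_sphere_norm_le n one_pos
      (((hQd N).sub hψd).diffContOnCl (s := Metric.ball 0 1)) (C := ε / 2) (fun w hw => by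
        have h3 := hN1 N hN w (Metric.sphere_subset_closedBall hw)
        rw [dist_comm, dist_eq_norm] at h3
        exact h3.le)
    have h4 : ((Q N).coeff n : ℂ) - co n =
        iteratedDeriv n ((fun w : ℂ => aeval w (Q N)) - ψ) 0 / (n.factorial : ℂ) := by
      rw [iteratedDeriv_sub ((hQd N).contDiff.contDiffAt) (hψd.contDiff.contDiffAt), sub_div,
        coeff_aeval]
    rw [h4, dist_zero_right, Real.norm_of_nonneg (norm_nonneg _), norm_div, Complex.norm_natCast,
      div_lt_iff₀ (by positivity)]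
    rw [one_pow, div_one] at h2
    have h5 : (0 : ℝ) < n.factorial := by positivity
    nlinarith
  have hbd : ∀ {B A K : ℝ}, (∀ (n : ℕ) (z : ℂ), ‖z‖ ≤ B → ‖iteratedDeriv n G z‖ ≤ gb A K σ n) →
      ∀ (n : ℕ) (z : ℂ), ‖z‖ ≤ B → ‖trm ψ G z n‖ ≤ qb M n * gb A K σ n := by
    intro B A K h n z hz
    rw [htrm, norm_mul]
    exact mul_le_mul (hcob n) (h n z hz) (norm_nonneg _) (qb_nonneg hM n)
  have hsum : ∀ z, Summable (trm ψ G z) := by
    intro z
    obtain ⟨A, K, hA, h⟩ := hgb ‖z‖ (norm_nonneg z)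
    exact Summable.of_norm_bounded (smb hA hM hσ) fun n => hbd h n z le_rfl
  refine st_lim fun R ε hε => ?_
  obtain ⟨A, K, hA, h⟩ := hgb (max R 0) (le_max_right _ _)
  have hT : Tendsto (fun N => ∑' n, ‖((Q N).coeff n : ℂ) - co n‖ * gb A K σ n) atTop
      (𝓝 (∑' _n : ℕ, (0 : ℝ))) := by
    refine tendsto_tsum_of_dominated_convergence (bound := fun n => 2 * (qb M n * gb A K σ n))
      ((smb hA hM hσ).mul_left 2) (fun n => ?_) ?_
    · have := (hcoef n).mul_const (gb A K σ n)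
      rwa [zero_mul] at this
    · filter_upwards [eventually_ge_atTop N0] with N hN n
      have h1 : ‖((Q N).coeff n : ℂ)‖ ≤ qb M n := by
        rw [← coeff_aeval]
        exact qbd (hQd N) hM (hN0 N hN) n
      rw [Real.norm_of_nonneg (mul_nonneg (norm_nonneg _) (gb_nonneg hA n))]
      have h2 := norm_sub_le ((Q N).coeff n : ℂ) (co n)
      have h3 := hcob n
      have h4 := gb_nonneg (K := K) (σ := σ) hA n
      nlinarith
  rw [tsum_zero] at hT
  obtain ⟨N, hN, hNN⟩ := ((hT.eventually (gt_mem_nhds hε)).and (eventually_ge_atTop N0)).exists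
  refine ⟨op (Q N) G, st_op hG hm _ (Q N) rfl (hQr N), fun z hz => ?_⟩
  have hz' : ‖z‖ ≤ max R 0 := hz.trans (le_max_left _ _)
  have h1 := ((tsum_op (Q N) G z).sub (hsum z).hasSum)
  have hs2 : Summable fun n => ‖((Q N).coeff n : ℂ) - co n‖ * gb A K σ n := by
    refine Summable.of_nonneg_of_le (fun n => mul_nonneg (norm_nonneg _) (gb_nonneg hA n))
      (fun n => ?_) ((smb (K := K) hA hM hσ).mul_left 2)
    have h1 : ‖((Q N).coeff n : ℂ)‖ ≤ qb M n := by
      rw [← coeff_aeval]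
      exact qbd (hQd N) hM (hN0 N hNN) n
    have h2 := norm_sub_le ((Q N).coeff n : ℂ) (co n)
    have h3 := hcob n
    have h4 := gb_nonneg (K := K) (σ := σ) hA n
    nlinarith
  rw [norm_sub_rev, ← h1.tsum_eq]
  refine (tsum_of_norm_bounded hs2.hasSum fun n => ?_).trans hN.le
  have h5 : trm (fun w : ℂ => aeval w (Q N)) G z n = ((Q N).coeff n : ℂ) * iteratedDeriv n G z := by
    unfold trm; rw [coeff_aeval]
  rw [h5, htrm, ← sub_mul, norm_mul]
  exact mul_le_mul_of_nonneg_left (h n z hz') (norm_nonneg _)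

/-- Hurwitz -/
theorem st_zero {f : ℂ → ℂ} (hf : Differentiable ℂ f) (hne : ∃ z, f z ≠ 0) (happ : ST f) :
    ∀ z : ℂ, f z = 0 → |z.im| ≤ 1 / 2 := by
  intro s hfs
  by_contra hcon
  push Not at hcon
  obtain ⟨w0, hw0⟩ := hne
  have hfan : AnalyticOnNhd ℂ f Set.univ := fun z _ => hf.analyticAt z
  have hiso : ∀ᶠ z in 𝓝[≠] s, f z ≠ 0 := by
    by_contra h
    rw [Filter.not_eventually] at h
    have h1 := hfan.eqOn_zero_of_preconnected_of_frequently_eq_zero isPreconnected_univ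
      (Set.mem_univ s) (h.mono fun z hz => by simpa using hz)
    exact hw0 (h1 (Set.mem_univ w0))
  have hall : ∀ᶠ r : ℝ in 𝓝[>] 0, (∀ z, ‖z - s‖ ≤ r → 1 / 2 < |z.im|) ∧
      (∀ z, ‖z - s‖ = r → f z ≠ 0) ∧ 0 < r := by
    have h1 : ∀ᶠ r : ℝ in 𝓝[>] 0, r < |s.im| - 1 / 2 :=
      (eventually_lt_nhds (by linarith)).filter_mono nhdsWithin_le_nhds
    have h2 : ∀ᶠ r : ℝ in 𝓝[>] 0, (∀ z, ‖z - s‖ = r → f z ≠ 0) := by
      have h3 := hiso
      rw [eventually_nhdsWithin_iff, Metric.eventually_nhds_iff] at h3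
      obtain ⟨δ, hδ, h3⟩ := h3
      filter_upwards [self_mem_nhdsWithin,
        (eventually_lt_nhds hδ).filter_mono nhdsWithin_le_nhds] with r hr hr' z hz
      apply h3
      · rw [dist_eq_norm, hz]
        exact hr'
      · intro hzs
        rw [Set.mem_singleton_iff] at hzs
        rw [hzs, sub_self, norm_zero] at hz
        rw [← hz] at hr
        exact lt_irrefl (0 : ℝ) hr
    filter_upwards [h1, h2, self_mem_nhdsWithin] with r hr1 hr2 hr3
    refine ⟨fun z hz => ?_, hr2, hr3⟩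
    have h4 : |(z - s).im| ≤ ‖z - s‖ := Complex.abs_im_le_norm _
    have h5 : |s.im| ≤ |(z - s).im| + |z.im| := by
      have h6 : s.im = z.im - (z - s).im := by rw [Complex.sub_im]; ring
      calc |s.im| = |z.im - (z - s).im| := by rw [← h6]
        _ ≤ |z.im| + |(z - s).im| := abs_sub _ _
        _ = _ := add_comm _ _
    linarith
  obtain ⟨r, hA, hA2, hr0⟩ := hall.exists
  -- the minimum on the circle
  obtain ⟨c, hc, hcle⟩ : ∃ c : ℝ, 0 < c ∧ ∀ z, ‖z - s‖ = r → c ≤ ‖f z‖ := by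
    have hK : IsCompact (Metric.sphere s r) := isCompact_sphere s r
    have hKne : (Metric.sphere s r).Nonempty := by
      refine ⟨s + r, ?_⟩
      rw [mem_sphere_iff_norm]
      simp [abs_of_pos hr0]
    obtain ⟨x, hx, hmin⟩ := hK.exists_isMinOn hKne hf.continuous.norm.continuousOn
    rw [mem_sphere_iff_norm] at hx
    refine ⟨‖f x‖, norm_pos_iff.mpr (hA2 x hx), fun z hz => ?_⟩
    apply hmin
    rw [mem_sphere_iff_norm]
    exact hz
  obtain ⟨P, hP, hfP⟩ := happ (‖s‖ + r) (c / 8) (by positivity)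
  have hin : ∀ z : ℂ, ‖z - s‖ ≤ r → ‖z‖ ≤ ‖s‖ + r := by
    intro z hz
    calc ‖z‖ = ‖(z - s) + s‖ := by ring_nf
      _ ≤ ‖z - s‖ + ‖s‖ := norm_add_le _ _
      _ ≤ ‖s‖ + r := by linarith
  have hs0 : ‖aeval s P‖ ≤ c / 8 := by
    have h1 := hfP s (hin s (by simp [hr0.le]))
    rw [hfs, zero_sub, norm_neg] at h1
    exact h1
  have hsph : ∀ z ∈ Metric.sphere s r, 3 * c / 4 ≤ ‖aeval z P - aeval s P‖ := by
    intro z hz
    rw [mem_sphere_iff_norm] at hz
    have h1 := hfP z (hin z hz.le)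
    have h2 := hcle z hz
    have h3 : ‖f z‖ ≤ ‖f z - aeval z P‖ + ‖aeval z P - aeval s P‖ + ‖aeval s P‖ := by
      calc ‖f z‖ = ‖(f z - aeval z P) + (aeval z P - aeval s P) + aeval s P‖ := by ring_nf
        _ ≤ _ := norm_add₃_le
    linarith
  have hfreq : ∃ᶠ z in 𝓝 s, aeval z P ≠ aeval s P := by
    by_contra h
    rw [Filter.not_frequently] at h
    have hPan : AnalyticOnNhd ℂ (fun z : ℂ => aeval z P) Set.univ := fun z _ =>
      (Polynomial.differentiable_aeval P).analyticAt z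
    have h1 := hPan.eqOn_of_preconnected_of_eventuallyEq (g := fun _ => aeval s P)
      (fun z _ => analyticAt_const) isPreconnected_univ (Set.mem_univ s)
      (h.mono fun z hz => by simpa using hz)
    have hz : s + (r : ℂ) ∈ Metric.sphere s r := by
      rw [mem_sphere_iff_norm]
      simp [abs_of_pos hr0]
    have h2 := hsph _ hz
    have h3 := h1 (Set.mem_univ (s + (r : ℂ)))
    simp only at h3
    rw [h3, sub_self, norm_zero] at h2
    linarith
  have h1 := DiffContOnCl.ball_subset_image_closedBall (f := fun z : ℂ => aeval z P)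
    ((Polynomial.differentiable_aeval P).diffContOnCl) hr0 hsph hfreq
  have h2 : (0 : ℂ) ∈ Metric.ball (aeval s P) (3 * c / 4 / 2) := by
    rw [Metric.mem_ball, dist_zero_left]
    linarith
  obtain ⟨z, hz, hz0⟩ := h1 h2
  have h3 := hA z (by simpa [dist_eq_norm] using hz)
  exact absurd (hP z hz0) (not_le.2 h3)

/-! ### The function Xi -/

theorem goodT : Pool.Agent.H24R2.JP.SGood :=
  Pool.Agent.H24R2.JP.good Pool.Agent.H24R2.JP.had Pool.Agent.H24R2.JP.b1
    (Pool.Agent.H24R2.JP.grow Pool.Agent.H24R2.JP.b1) (Pool.Agent.H24R2.JP.zeros Pool.Agent.H24R2.JP.b1)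
    (Pool.Agent.H24R2.JP.gamS Pool.Agent.H24R2.JP.mom)

theorem Xi_eq (z : ℂ) : Xi z = FF (-z ^ 2) / 8 := by
  have h1 := Pool.Agent.H24R2.JP.b1.2.1 (I * z)
  have h2 : (I * z) ^ 2 = -z ^ 2 := by
    rw [mul_pow, I_sq]
    ring
  rw [h2] at h1
  rw [h1]
  unfold Xi XX
  rw [h2]
  have h3 : (1 / 2 + I * z) * (1 / 2 + I * z - 1) = (4 * (-z ^ 2) - 1) / 4 := by
    rw [← h2]
    ring
  rw [h3]
  ring

theorem Xi_diff : Differentiable ℂ Xi := by
  have h1 : Xi = fun z => FF (-z ^ 2) / 8 := funext Xi_eq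
  rw [h1]
  have h2 := Pool.Agent.H24R2.JP.b1.1
  exact (h2.comp (differentiable_id.pow 2).neg).div_const _

theorem Xi_gr : Gr2 Xi := by
  obtain ⟨K, hK⟩ := Pool.Agent.H24R2.JP.grow Pool.Agent.H24R2.JP.b1
  refine ⟨|K|, 3 / 2, abs_nonneg _, by norm_num, by norm_num, fun z => ?_⟩
  rw [Xi_eq, norm_div]
  have h1 := hK (-z ^ 2)
  rw [norm_neg, norm_pow] at h1
  have h2 : (1 + ‖z‖ ^ 2) ^ (3 / 4 : ℝ) ≤ (1 + ‖z‖) ^ (3 / 2 : ℝ) := by
    have h3 : 1 + ‖z‖ ^ 2 ≤ (1 + ‖z‖) ^ 2 := by nlinarith [norm_nonneg z]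
    have h4 : ((1 + ‖z‖) ^ 2) ^ (3 / 4 : ℝ) = (1 + ‖z‖) ^ (3 / 2 : ℝ) := by
      rw [← Real.rpow_natCast (1 + ‖z‖) 2, ← Real.rpow_mul (by positivity)]
      norm_num
    rw [← h4]
    exact Real.rpow_le_rpow (by positivity) h3 (by norm_num)
  have h5 : K * (1 + ‖z‖ ^ 2) ^ (3 / 4 : ℝ) ≤ |K| * (1 + ‖z‖) ^ (3 / 2 : ℝ) := by
    calc K * (1 + ‖z‖ ^ 2) ^ (3 / 4 : ℝ) ≤ |K| * (1 + ‖z‖ ^ 2) ^ (3 / 4 : ℝ) :=
          mul_le_mul_of_nonneg_right (le_abs_self K) (by positivity)
      _ ≤ _ := mul_le_mul_of_nonneg_left h2 (abs_nonneg K)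
  have h6 : ‖(8 : ℂ)‖ = 8 := by norm_num
  rw [h6]
  calc ‖FF (-z ^ 2)‖ / 8 ≤ ‖FF (-z ^ 2)‖ := div_le_self (norm_nonneg _) (by norm_num)
    _ ≤ Real.exp (K * (1 + ‖z‖ ^ 2) ^ (3 / 4 : ℝ)) := h1
    _ ≤ _ := Real.exp_le_exp.2 h5

theorem Xi_st : ST Xi := by
  obtain ⟨-, ⟨P, hP, hlim⟩, -⟩ := goodT
  intro R ε hε
  have h1 := (tendstoLocallyUniformly_iff_forall_isCompact.1 hlim) (Metric.closedBall 0 (R ^ 2))
    (isCompact_closedBall _ _)
  rw [Metric.tendstoUniformlyOn_iff] at h1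
  obtain ⟨N, hN⟩ := (h1 (8 * ε) (by positivity)).exists
  obtain ⟨Q, hQ⟩ : ∃ Q : ℝ[X], Q = C (1 / 8 : ℝ) * (P N).comp (-X ^ 2) := ⟨_, rfl⟩
  have hev : ∀ w : ℂ, aeval w Q = aeval (-w ^ 2) (P N) / 8 := by
    intro w
    rw [hQ, map_mul, aeval_C, aeval_comp, map_neg, map_pow, aeval_X, Complex.coe_algebraMap]
    push_cast
    ring
  refine ⟨Q, fun w hw => ?_, fun z hz => ?_⟩
  · rw [hev, div_eq_zero_iff] at hw
    rcases hw with hw | hw
    · have h2 := hP N _ hw
      have h3 : (-w ^ 2).re = w.im ^ 2 - w.re ^ 2 := by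
        rw [Complex.neg_re, sq, Complex.mul_re]
        ring
      have h4 : (-w ^ 2).im = -(2 * w.re * w.im) := by
        rw [Complex.neg_im, sq, Complex.mul_im]
        ring
      have h5 : (-w ^ 2).re + (-w ^ 2).im ^ 2 ≤ 1 / 4 := h2
      rw [h3, h4] at h5
      have h6 : (w.im ^ 2 - 1 / 4) * (1 + 4 * w.re ^ 2) ≤ 0 := by nlinarith
      have h7 : w.im ^ 2 ≤ (1 / 2) ^ 2 := by
        by_contra h8
        push Not at h8
        have h9 : 0 < (w.im ^ 2 - 1 / 4) * (1 + 4 * w.re ^ 2) := by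
          apply mul_pos
          · norm_num at h8
            linarith
          · positivity
        linarith
      exact abs_le_of_sq_le_sq h7 (by norm_num)
    · norm_num at hw
  · rw [hev, Xi_eq, ← sub_div, norm_div]
    have h2 := hN (-z ^ 2) (by
      rw [mem_closedBall_zero_iff, norm_neg, norm_pow]
      exact pow_le_pow_left₀ (norm_nonneg z) hz 2)
    rw [dist_eq_norm] at h2
    have h6 : ‖(8 : ℂ)‖ = 8 := by norm_num
    rw [h6, div_le_iff₀ (by norm_num)]
    linarith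

theorem strip : S_STRIP := by
  intro φ G hφ hG hne z hz
  have hGe : G = fun z => ∑' n, trm φ Xi z n := funext fun z => (hG z).tsum_eq.symm
  have h1 : Differentiable ℂ (fun z => ∑' n, trm φ Xi z n) :=
    (Pool.Agent.N525.GN.t_C5 Pool.Agent.N134.GN.c2 φ hφ Xi Xi_diff Xi_gr).2.1
  have h2 := st_main hφ Xi_diff Xi_gr Xi_st
  rw [← hGe] at h1 h2
  exact st_zero h1 hne h2 z hz

end Pool.Agent.N136.KL
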